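import Pool.Agent.X232.RR.Comp

/-!
# A right reversible monoid with undecidable membership problem in its group of right quotients
-/

set_option autoImplicit false

namespace Pool.Agent.Results.MP_91a774_al.UndecidableMembership

open Pool.Agent.X232.RR

/-- The element of the group `G` represented by a word over the letters `x i` (written `(i, true)`)
and their inverses (written `(i, false)`). -/
def value {G : Type} [Group G] {k : ℕ} (x : Fin k → G) (w : List (Fin k × Bool)) : G :=
  (w.map fun p => if p.2 then x p.1 else (x p.1)⁻¹).prod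

lemma value_eq {G : Type} [Group G] {k : ℕ} (x : Fin k → G) (w : List (Fin k × Bool)) :
    value x w = gv x (FreeGroup.mk w) := by
  rw [gv, FreeGroup.lift_mk, value]
  congr 1
  refine List.map_congr_left fun p _ => ?_
  cases p.2 <;> rfl

/-- There are a finitely generated right reversible cancellative monoid `P` (generated by
`x 0, …, x (k - 1)`) and a group `G` of right quotients of `P` (`P` embeds in `G` by `ι`, and every
element of `G` has the form `ι p (ι q)⁻¹`) such that `G` has solvable word problem, but the
membership problem of `P` in `G` is undecidable. -/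
theorem result : ∃ (P : Type) (_ : CancelMonoid P) (G : Type) (_ : Group G) (ι : P →* G) (k : ℕ)
    (x : Fin k → P), Submonoid.closure (Set.range x) = ⊤ ∧
    (∀ a b : P, ∃ c d : P, a * c = b * d) ∧
    Function.Injective ι ∧ (∀ g : G, ∃ p q : P, g = ι p * (ι q)⁻¹) ∧
    ComputablePred (fun w : List (Fin k × Bool) => value (fun i => ι (x i)) w = 1) ∧
    ¬ ComputablePred (fun w : List (Fin k × Bool) =>
      value (fun i => ι (x i)) w ∈ Set.range ι) := by
  classical
  obtain ⟨m, R, W, hW, hR⟩ := Pool.Agent.Helper270.WP.word_problem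
  let P : Submonoid (GG m) := Submonoid.closure (Set.range (phF R))
  have hP : ∀ g : GG m, g ∈ P ↔ g ∈ posVals (phF R) := by
    intro g
    constructor
    · intro h
      obtain ⟨l, hl, rfl⟩ := Submonoid.exists_list_of_mem_closure h
      clear h
      induction l with
      | nil => exact one_mem_posVals
      | cons y l ih =>
        obtain ⟨i, rfl⟩ := hl y List.mem_cons_self
        obtain ⟨a, ha⟩ := ih (fun z hz => hl z (List.mem_cons_of_mem _ hz))
        exact ⟨i :: a, by rw [List.map_cons, List.prod_cons, List.prod_cons, ha]⟩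
    · rintro ⟨a, rfl⟩
      refine Submonoid.list_prod_mem _ ?_
      intro y hy
      obtain ⟨i, -, rfl⟩ := List.mem_map.1 hy
      exact Submonoid.subset_closure ⟨i, rfl⟩
  let x : Fin (kk R) → P := fun i => ⟨phF R i, Submonoid.subset_closure ⟨i, rfl⟩⟩
  have hr : Set.range (P.subtype : P →* GG m) = posVals (phF R) := by
    ext g
    rw [← hP]
    constructor
    · rintro ⟨p, rfl⟩; exact p.2
    · intro h; exact ⟨⟨g, h⟩, rfl⟩
  have hval : (fun i => P.subtype (x i)) = phF R := rfl
  refine ⟨P, { (inferInstance : Monoid P) with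
      mul_left_cancel := fun a b c h => Subtype.ext (mul_left_cancel (congrArg Subtype.val h))
      mul_right_cancel := fun a b c h => Subtype.ext (mul_right_cancel (congrArg Subtype.val h)) },
    GG m, inferInstance, P.subtype, kk R, x, ?_, ?_, ?_, ?_, ?_, ?_⟩
  · -- generation
    have h1 : Set.range x = (Subtype.val : P → GG m) ⁻¹' (Set.range (phF R)) := by
      ext p
      constructor
      · rintro ⟨i, rfl⟩; exact ⟨i, rfl⟩
      · rintro ⟨i, hi⟩; exact ⟨i, Subtype.ext hi⟩
    rw [h1]
    exact Submonoid.closure_closure_coe_preimage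
  · rintro ⟨a, ha⟩ ⟨b, hb⟩
    obtain ⟨a', rfl⟩ := (hP a).1 ha
    obtain ⟨b', rfl⟩ := (hP b).1 hb
    obtain ⟨c, d, h⟩ := revF R a' b'
    refine ⟨⟨(c.map (phF R)).prod, (hP _).2 ⟨c, rfl⟩⟩, ⟨(d.map (phF R)).prod, (hP _).2 ⟨d, rfl⟩⟩,
      Subtype.ext ?_⟩
    rw [List.map_append, List.map_append, List.prod_append, List.prod_append] at h
    exact h
  · exact Subtype.val_injective
  · intro g
    -- `g = (g₁, n)`; with a positive word `a` for `g₁`, `g = a t^N (t^M)⁻¹`
    obtain ⟨l, hl⟩ : ∃ l : List (Bool × Fin m × Bool), (l.map sg).prod = g.1 := by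
      refine ⟨(g.1.1.toWord.map fun p => (false, p)) ++
        (g.1.2.toWord.map fun p => (true, p)), ?_⟩
      rw [List.map_append, List.prod_append, prod_sg_map, prod_sg_map, FreeGroup.mk_toWord,
        FreeGroup.mk_toWord]
      simp
    set z : ℤ := Multiplicative.toAdd g.2 with hz
    let p : GG m := ((l.map (yy R)).map (ph R)).prod * ((List.replicate z.toNat none).map (ph R)).prod
    let q : GG m := ((List.replicate (l.length + (-z).toNat) none).map (ph R)).prod
    have hp : p ∈ P := (hP _).2 (by
      rw [posVals_F]
      exact ⟨l.map (yy R) ++ List.replicate z.toNat none, by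
        rw [List.map_append, List.prod_append]⟩)
    have hq : q ∈ P := (hP _).2 (by rw [posVals_F]; exact ⟨_, rfl⟩)
    refine ⟨⟨p, hp⟩, ⟨q, hq⟩, ?_⟩
    show g = p * q⁻¹
    simp only [p, q]
    rw [prod_ph_yy, prod_ph_rep, prod_ph_rep, hl]
    refine Prod.ext ?_ ?_
    · simp
    · simp only [Prod.snd_mul, Prod.snd_inv, ← ofAdd_add, ← ofAdd_neg]
      have e : g.2 = Multiplicative.ofAdd z := rfl
      rw [e]
      congr 1
      push_cast
      omega
  · refine (decF R).of_eq fun w => ?_
    rw [value_eq, hval]
  · intro hc
    apply hR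
    let F : ℕ → List (Fin (kk R) × Bool) := fun n =>
      pos (pw R (W n)) ++ FreeGroup.invRev (pos (tw R (W n)))
    have hF : Computable F := by
      have h1 : Primrec (fun w : List (Fin m × Bool) =>
          (pos (pw R w) ++ FreeGroup.invRev (pos (tw R w)))) :=
        Primrec.list_append.comp (prim_pos.comp (prim_pw R))
          (prim_inv.comp (prim_pos.comp (prim_tw R)))
      exact h1.to_comp.comp hW
    refine (computablePred_comp hc hF).of_eq fun n => ?_
    rw [value_eq, hval, hr, ← mem_iff, mk_append, mk_invRev, map_mul, map_inv, gv_pos, gv_pos]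

end Pool.Agent.Results.MP_91a774_al.UndecidableMembership
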